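/-
Project PD (MP_4845bf_pr), part B8 (BAYES).
-/
import Pool.Agent.L7h38.PD.Stm

open MeasureTheory Set Filter Topology
open scoped RealInnerProductSpace ENNReal

namespace Pool.Agent.L7h98.PD

open Pool.Agent.L7h38.PD

/-- linear substitution for the Bochner integral -/
theorem lin_subR {d : ℕ} (A : E d ≃L[ℝ] E d) : ∃ c : ℝ, 0 < c ∧
    ∀ f : E d → ℝ, ∫ x, f x = c * ∫ x, f (A x) := by
  set a : E d →ₗ[ℝ] E d := ((A : E d →L[ℝ] E d) : E d →ₗ[ℝ] E d) with ha
  have hdet : LinearMap.det a ≠ 0 := by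
    exact (LinearEquiv.isUnit_det' A.toLinearEquiv).ne_zero
  have hmap := Measure.map_linearMap_addHaar_eq_smul_addHaar (μ := (volume : Measure (E d))) hdet
  refine ⟨|LinearMap.det a|, abs_pos.2 hdet, fun f => ?_⟩
  have h1 : ∫ x, f (A x) = ∫ x, f x ∂(Measure.map a volume) := by
    have := (A.toHomeomorph.measurableEmbedding).integral_map (μ := (volume : Measure (E d))) f
    exact this.symm
  rw [h1, hmap, integral_smul_measure, smul_eq_mul, ← mul_assoc, ENNReal.toReal_ofReal (abs_nonneg _),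
    abs_inv, mul_inv_cancel₀ (abs_ne_zero.2 hdet), one_mul]

/-- inverse gamma integral -/
theorem inv_gamma {a r : ℝ} (ha : 0 < a) (hr : 0 < r) :
    ∫ v in Ioi (0 : ℝ), v ^ (-a - 1) * Real.exp (-r / (2 * v)) =
      (2 : ℝ) ^ a * Real.Gamma a * r ^ (-a) := by
  have h1 := integral_comp_rpow_Ioi (fun y : ℝ => y ^ (a - 1) * Real.exp (-(r / 2 * y)))
    (p := -1) (by norm_num)
  rw [Real.integral_rpow_mul_exp_neg_mul_Ioi ha (by positivity)] at h1
  have e : (1 / (r / 2)) ^ a * Real.Gamma a = (2 : ℝ) ^ a * Real.Gamma a * r ^ (-a) := by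
    rw [one_div_div, Real.div_rpow (by norm_num) hr.le, Real.rpow_neg hr.le]
    ring
  rw [← e, ← h1]
  refine setIntegral_congr_fun measurableSet_Ioi fun v hv => ?_
  have hv0 : (0 : ℝ) < v := hv
  have e1 : v ^ (-a - 1) = v ^ ((-1 : ℝ) - 1) * (v ^ (-1 : ℝ)) ^ (a - 1) := by
    rw [← Real.rpow_mul hv0.le, ← Real.rpow_add hv0]
    congr 1
    ring
  have e2 : -r / (2 * v) = -(r / 2 * v ^ (-1 : ℝ)) := by
    rw [Real.rpow_neg_one]
    field_simp
  simp only [smul_eq_mul]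
  rw [e1, e2]
  norm_num
  ring

theorem s_BAYES : S_BAYES := by
  intro k m ν s hν hs0 hs1 L B C R hsq
  obtain ⟨cC, hC0, hC⟩ := lin_subR C
  set a : ℝ := ((m : ℝ) * (1 - s) + ν) / 2 with ha
  have hνp : (0 : ℝ) < ν := by exact_mod_cast hν
  have hmp : 0 ≤ (m : ℝ) * (1 - s) := mul_nonneg (Nat.cast_nonneg _) (by linarith)
  have ha0 : 0 < a := by positivity
  refine ⟨cC * (2 * Real.pi) ^ ((k : ℝ) / 2) * ((2 : ℝ) ^ a * Real.Gamma a), ?_,
    fun x S hS yt => ?_⟩
  · have := Real.Gamma_pos_of_pos ha0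
    positivity
  set ζ : E m := yt - L x with hζ
  set r : ℝ := S + ‖B ζ‖ ^ 2 with hr
  have hr0 : 0 < r := by positivity
  have hinner : ∀ v : ℝ, 0 < v → ∫ θ : E k,
      v ^ (-((m : ℝ) * (1 - s) + k + ν) / 2 - 1) *
        Real.exp (-((1 - s) * ‖yt - L θ‖ ^ 2 + ‖x - θ‖ ^ 2 + S) / (2 * v)) =
      cC * (2 * Real.pi) ^ ((k : ℝ) / 2) * (v ^ (-a - 1) * Real.exp (-r / (2 * v))) := by
    intro v hv
    rw [integral_const_mul]
    rw [← integral_sub_left_eq_self _ _ x]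
    have e0 : ∀ u : E k, Real.exp (-((1 - s) * ‖yt - L (x - u)‖ ^ 2 + ‖x - (x - u)‖ ^ 2 + S) /
        (2 * v)) = Real.exp (-((1 - s) * ‖ζ + L u‖ ^ 2 + ‖u‖ ^ 2 + S) / (2 * v)) := by
      intro u
      have e1 : yt - L (x - u) = ζ + L u := by rw [map_sub, hζ]; abel
      have e2 : x - (x - u) = u := by abel
      rw [e1, e2]
    simp_rw [e0]
    rw [← integral_sub_right_eq_self _ (R (B ζ)), hC]
    have e3 : ∀ w : E k, Real.exp (-((1 - s) * ‖ζ + L (C w - R (B ζ))‖ ^ 2 +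
        ‖C w - R (B ζ)‖ ^ 2 + S) / (2 * v)) =
        Real.exp (-r / (2 * v)) * Real.exp (-(1 / (2 * v)) * ‖w‖ ^ 2) := by
      intro w
      rw [← Real.exp_add]
      congr 1
      have := hsq ζ w
      rw [hr]
      field_simp
      linarith
    simp_rw [e3]
    rw [integral_const_mul, GaussianFourier.integral_rexp_neg_mul_sq_norm (by positivity)]
    rw [finrank_euclideanSpace, Fintype.card_fin]
    have e4 : Real.pi / (1 / (2 * v)) = (2 * Real.pi) * v := by field_simp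
    rw [e4, Real.mul_rpow (by positivity) hv.le]
    have e5 : v ^ (-((m : ℝ) * (1 - s) + k + ν) / 2 - 1) * v ^ ((k : ℝ) / 2) = v ^ (-a - 1) := by
      rw [← Real.rpow_add hv]
      congr 1
      rw [ha]
      ring
    rw [← e5]
    ring
  rw [setIntegral_congr_fun measurableSet_Ioi (fun v hv => hinner v hv), integral_const_mul,
    inv_gamma ha0 hr0]
  have e6 : -((m : ℝ) * (1 - s) + ν) / 2 = -a := by rw [ha]; ring
  rw [e6]
  ring

end Pool.Agent.L7h98.PD
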