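/-
Project PD (MP_4845bf_pr), part B1 (ISO).
-/
import Pool.Agent.L7h38.PD.Stm

open MeasureTheory Set Filter Topology
open scoped RealInnerProductSpace ENNReal

namespace Pool.Agent.L7h98.PD

open Pool.Agent.L7h38.PD

theorem s_ISO : S_ISO := by
  intro n k hk A hA
  set V : Submodule ℝ (E n) := LinearMap.range (A : E k →ₗ[ℝ] E n) with hV
  have hV1 : Module.finrank ℝ V = k := by
    rw [hV, LinearMap.finrank_range_of_inj hA, finrank_euclideanSpace, Fintype.card_fin]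
  have hV2 : Module.finrank ℝ Vᗮ = n - k := by
    have h := V.finrank_add_finrank_orthogonal
    rw [hV1, finrank_euclideanSpace, Fintype.card_fin] at h
    omega
  let φ1 : V ≃ₗᵢ[ℝ] E k := ((stdOrthonormalBasis ℝ V).reindex (finCongr hV1)).repr
  let φ2 : Vᗮ ≃ₗᵢ[ℝ] E (n - k) := ((stdOrthonormalBasis ℝ Vᗮ).reindex (finCongr hV2)).repr
  let D := V.orthogonalDecomposition
  -- the isometry
  let Ψ : WithLp 2 (V × Vᗮ) ≃ₗ[ℝ] WithLp 2 (E k × E (n - k)) :=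
    (WithLp.linearEquiv 2 ℝ (V × Vᗮ)).trans
      ((LinearEquiv.prodCongr φ1.toLinearEquiv φ2.toLinearEquiv).trans
        (WithLp.linearEquiv 2 ℝ (E k × E (n - k))).symm)
  have hΨ : ∀ p, ‖Ψ p‖ = ‖p‖ := by
    intro p
    have h1 : ‖Ψ p‖ ^ 2 = ‖p‖ ^ 2 := by
      rw [WithLp.prod_norm_sq_eq_of_L2, WithLp.prod_norm_sq_eq_of_L2]
      show ‖φ1 p.fst‖ ^ 2 + ‖φ2 p.snd‖ ^ 2 = _
      rw [φ1.norm_map, φ2.norm_map]
    exact (pow_left_inj₀ (norm_nonneg _) (norm_nonneg _) two_ne_zero).1 h1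
  let Φ : E n ≃ₗᵢ[ℝ] WithLp 2 (E k × E (n - k)) := D.trans ⟨Ψ, hΨ⟩
  let e : E n ≃L[ℝ] E k × E (n - k) :=
    Φ.toContinuousLinearEquiv.trans (WithLp.prodContinuousLinearEquiv 2 ℝ (E k) (E (n - k)))
  have he : ∀ y, e y = WithLp.ofLp (Φ y) := fun y => rfl
  let g : E k ≃L[ℝ] E k :=
    ((LinearEquiv.ofInjective (A : E k →ₗ[ℝ] E n) hA).trans
      φ1.toLinearEquiv).toContinuousLinearEquiv
  refine ⟨e, g, ?_, ?_, ?_⟩
  · exact (WithLp.volume_preserving_ofLp _ _).comp Φ.measurePreserving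
  · intro y
    rw [← Φ.norm_map y, WithLp.prod_norm_sq_eq_of_L2]
    rfl
  · intro β
    have hmem : A β ∈ V := ⟨β, rfl⟩
    have h1 : D (A β) = WithLp.toLp 2 ((⟨A β, hmem⟩ : V), (0 : Vᗮ)) := by
      apply D.symm.injective
      rw [D.symm_apply_apply]
      simp [D]
    rw [he]
    show WithLp.ofLp (Ψ (D (A β))) = _
    rw [h1]
    show (φ1 ⟨A β, hmem⟩, φ2 0) = _
    rw [map_zero]
    rfl

end Pool.Agent.L7h98.PD
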