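/-
Project PD (MP_4845bf_pr), part B7 (KLI).
-/
import Pool.Agent.L7h38.PD.Stm

open MeasureTheory Set Filter Topology
open scoped RealInnerProductSpace ENNReal

namespace Pool.Agent.L7h98.PD

open Pool.Agent.L7h38.PD

theorem gauss {d : ℕ} (θ : E d) {b : ℝ} (hb : 0 < b) :
    Integrable (fun x : E d => Real.exp (-b * ‖x - θ‖ ^ 2)) := by
  have h1 : Integrable (fun x : E d => Real.exp (-b * ‖x‖ ^ 2)) := by
    have h := (GaussianFourier.integrable_cexp_neg_mul_sq_norm_add (V := E d)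
      (b := (b : ℂ)) (by simpa using hb) 0 0).norm
    refine h.congr (Eventually.of_forall fun x => ?_)
    simp only [Complex.norm_exp]
    congr 1
    have : (-(b : ℂ) * (‖x‖ : ℂ) ^ 2 + 0 * ((⟪(0 : E d), x⟫ : ℝ) : ℂ)) =
      ((-b * ‖x‖ ^ 2 : ℝ) : ℂ) := by push_cast; ring
    rw [this, Complex.ofReal_re]
  exact h1.comp_sub_right θ

theorem gpoly {d : ℕ} (θ : E d) :
    Integrable (fun x : E d => Real.exp (-‖x - θ‖ ^ 2 / 2) * (1 + ‖x‖ ^ 2)) := by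
  refine ((gauss θ (b := 1 / 4) (by norm_num)).const_mul (9 + 2 * ‖θ‖ ^ 2)).mono'
    (by fun_prop) (Eventually.of_forall fun x => ?_)
  rw [Real.norm_of_nonneg (by positivity)]
  set r := ‖x - θ‖ with hr
  have hr0 : 0 ≤ r := norm_nonneg _
  have h1 : ‖x‖ ≤ r + ‖θ‖ := by
    have := norm_add_le (x - θ) θ
    rwa [sub_add_cancel] at this
  have h2 : ‖x‖ ^ 2 ≤ 2 * r ^ 2 + 2 * ‖θ‖ ^ 2 := by
    nlinarith [norm_nonneg x, norm_nonneg θ, sq_nonneg (r - ‖θ‖)]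
  have h3 : r ^ 2 / 4 + 1 ≤ Real.exp (r ^ 2 / 4) := Real.add_one_le_exp _
  have h4 : 1 + ‖x‖ ^ 2 ≤ (9 + 2 * ‖θ‖ ^ 2) * Real.exp (r ^ 2 / 4) := by
    have h5 : (1 : ℝ) ≤ Real.exp (r ^ 2 / 4) := Real.one_le_exp (by positivity)
    nlinarith [sq_nonneg ‖θ‖]
  calc Real.exp (-r ^ 2 / 2) * (1 + ‖x‖ ^ 2)
      ≤ Real.exp (-r ^ 2 / 2) * ((9 + 2 * ‖θ‖ ^ 2) * Real.exp (r ^ 2 / 4)) := by gcongr
    _ = (9 + 2 * ‖θ‖ ^ 2) * (Real.exp (-r ^ 2 / 2) * Real.exp (r ^ 2 / 4)) := by ring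
    _ = (9 + 2 * ‖θ‖ ^ 2) * Real.exp (-(1 / 4) * r ^ 2) := by
        rw [← Real.exp_add]; congr 2; ring

theorem gpow {ν : ℕ} (hν : 0 < ν) :
    Integrable (fun y : E ν => ‖y‖ ^ (-(1 / 2) : ℝ) * Real.exp (-(1 / 2) * ‖y‖ ^ 2)) := by
  have : Nonempty (Fin ν) := ⟨⟨0, hν⟩⟩
  have h := (integrable_fun_norm_addHaar (E := E ν) (volume : Measure (E ν))
    (f := fun r : ℝ => r ^ (-(1 / 2) : ℝ) * Real.exp (-(1 / 2) * r ^ 2))).2 ?_
  · exact h
  · rw [finrank_euclideanSpace, Fintype.card_fin]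
    have h1 := integrableOn_rpow_mul_exp_neg_mul_sq (b := 1 / 2) (by norm_num)
      (s := (ν : ℝ) - 1 - 1 / 2) (by
        have : (1 : ℝ) ≤ ν := by exact_mod_cast hν
        linarith)
    refine h1.congr_fun (fun r hr => ?_) measurableSet_Ioi
    have hr0 : (0 : ℝ) < r := hr
    have e : r ^ ((ν : ℝ) - 1 - 1 / 2) = r ^ (ν - 1) * r ^ (-(1 / 2) : ℝ) := by
      rw [← Real.rpow_natCast r (ν - 1), ← Real.rpow_add hr0, Nat.cast_sub hν]
      congr 1
      push_cast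
      ring
    simp only [smul_eq_mul, e]
    ring

theorem log_bound {r : ℝ} (hr : 0 ≤ r) :
    |Real.log (r ^ 2)| ≤ (1 + r ^ 2) + 4 * r ^ (-(1 / 2) : ℝ) := by
  rcases hr.eq_or_lt with h | h
  · subst h
    have : (0 : ℝ) ^ (-(1 / 2) : ℝ) = 0 := Real.zero_rpow (by norm_num)
    rw [this]
    simp
  · rw [Real.log_pow, abs_mul]
    have h2 : |((2 : ℕ) : ℝ)| = 2 := by norm_num
    rw [h2]
    have h3 : 0 < r ^ (-(1 / 2) : ℝ) := Real.rpow_pos_of_pos h _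
    rcases le_total 1 r with h1 | h1
    · rw [abs_of_nonneg (Real.log_nonneg h1)]
      have := Real.log_le_sub_one_of_pos h
      nlinarith [sq_nonneg (r - 1)]
    · rw [abs_of_nonpos (Real.log_nonpos h.le h1)]
      have h4 := Real.log_le_rpow_div (x := r⁻¹) (by positivity) (ε := 1 / 2) (by norm_num)
      rw [Real.log_inv, Real.inv_rpow h.le, ← Real.rpow_neg h.le] at h4
      nlinarith [sq_nonneg r]

theorem glog {ν : ℕ} (hν : 0 < ν) :
    Integrable (fun y : E ν => Real.exp (-‖y‖ ^ 2 / 2) * |Real.log (‖y‖ ^ 2)|) := by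
  have h1 := gpoly (0 : E ν)
  simp only [sub_zero] at h1
  refine (h1.add ((gpow hν).const_mul 4)).mono' (Measurable.aestronglyMeasurable (by fun_prop))
    (Eventually.of_forall fun y => ?_)
  rw [Real.norm_of_nonneg (by positivity)]
  have h2 := log_bound (norm_nonneg y)
  have e : Real.exp (-(1 / 2) * ‖y‖ ^ 2) = Real.exp (-‖y‖ ^ 2 / 2) := by congr 1; ring
  simp only [Pi.add_apply]
  rw [e]
  have h3 := mul_le_mul_of_nonneg_left h2 (Real.exp_pos (-‖y‖ ^ 2 / 2)).le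
  linarith

theorem s_KLI : S_KLI := by
  intro k m ν hν θ η
  have g1 : ∀ {d : ℕ} (θ : E d), Integrable (fun x : E d => Real.exp (-‖x - θ‖ ^ 2 / 2)) := by
    intro d θ
    refine (gauss θ (b := 1 / 2) (by norm_num)).congr (Eventually.of_forall fun x => ?_)
    show Real.exp _ = Real.exp _
    congr 1
    ring
  have a1 := gpoly θ
  have a0 := g1 θ
  have b1 := gpoly (0 : E ν)
  have b0 := g1 (0 : E ν)
  simp only [sub_zero] at b1 b0
  have b2 := glog hν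
  have c1 := gpoly η
  have c0 := g1 η
  have t1 := (a1.mul_prod b0).mul_prod c0
  have t2 := (a0.mul_prod b2).mul_prod c0
  have t3 := (a0.mul_prod b1).mul_prod c0
  have t4 := (a0.mul_prod b0).mul_prod c1
  have t0 := (a0.mul_prod b0).mul_prod c0
  refine (((((t1.add t2).add t3).add t4).sub t0).sub t0).congr (Eventually.of_forall fun y => ?_)
  simp only [Pi.add_apply, Pi.sub_apply]
  have e : Real.exp (-(‖y.1.1 - θ‖ ^ 2 + ‖y.1.2‖ ^ 2 + ‖y.2 - η‖ ^ 2) / 2) =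
      Real.exp (-‖y.1.1 - θ‖ ^ 2 / 2) * Real.exp (-‖y.1.2‖ ^ 2 / 2) *
        Real.exp (-‖y.2 - η‖ ^ 2 / 2) := by
    rw [← Real.exp_add, ← Real.exp_add]
    congr 1
    ring
  rw [e]
  ring

end Pool.Agent.L7h98.PD
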