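/-
Project PD (MP_4845bf_pr), part B2 (LIN).
-/
import Pool.Agent.L7h38.PD.Stm

open MeasureTheory Set Filter Topology
open scoped RealInnerProductSpace ENNReal

namespace Pool.Agent.L7h98.PD

open Pool.Agent.L7h38.PD

/-- `‖a ·‖ = ‖B ·‖` for a linear equivalence `B`, if `a` is injective. -/
theorem sq_equiv {d : ℕ} {F : Type} [NormedAddCommGroup F] [InnerProductSpace ℝ F]
    (a : E d →ₗ[ℝ] F) (ha : Function.Injective a) :
    ∃ B : E d ≃L[ℝ] E d, ∀ v, ‖B v‖ = ‖a v‖ := by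
  have hf : Module.finrank ℝ (LinearMap.range a) = d := by
    rw [LinearMap.finrank_range_of_inj ha, finrank_euclideanSpace, Fintype.card_fin]
  set b := (stdOrthonormalBasis ℝ (LinearMap.range a)).reindex (finCongr hf) with hb
  refine ⟨((LinearEquiv.ofInjective a ha).trans b.repr.toLinearEquiv).toContinuousLinearEquiv,
    fun v => ?_⟩
  show ‖b.repr (LinearEquiv.ofInjective a ha v)‖ = _
  rw [b.repr.norm_map]
  rfl

theorem s_LIN : S_LIN := by
  intro m k s hs0 hs1 L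
  have h1s : 0 < 1 - s := by linarith
  set Lt : E m →L[ℝ] E k := ContinuousLinearMap.adjoint L with hLt
  set P : E k →ₗ[ℝ] E k := (ContinuousLinearMap.id ℝ (E k) + (1 - s) • (Lt.comp L) :
    E k →L[ℝ] E k).toLinearMap with hP
  have hPa : ∀ v, P v = v + (1 - s) • Lt (L v) := fun v => rfl
  have hPi : Function.Injective P := by
    rw [← LinearMap.ker_eq_bot, LinearMap.ker_eq_bot']
    intro v hv
    have h1 : ⟪P v, v⟫ = ‖v‖ ^ 2 + (1 - s) * ‖L v‖ ^ 2 := by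
      rw [hPa, inner_add_left, inner_smul_left, hLt, ContinuousLinearMap.adjoint_inner_left,
        real_inner_self_eq_norm_sq, real_inner_self_eq_norm_sq]
      simp
    rw [hv, inner_zero_left] at h1
    have h2 : ‖v‖ ^ 2 ≤ 0 := by nlinarith [sq_nonneg ‖L v‖, sq_nonneg ‖v‖]
    have h3 : ‖v‖ = 0 := by nlinarith [norm_nonneg v]
    exact norm_eq_zero.1 h3
  set Pe : E k ≃ₗ[ℝ] E k := LinearEquiv.ofInjectiveEndo P hPi with hPe
  have hPe' : ∀ v, P (Pe.symm v) = v := fun v => Pe.apply_symm_apply v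
  set u0 : E m →ₗ[ℝ] E k := -((1 - s) • (Pe.symm.toLinearMap ∘ₗ Lt.toLinearMap)) with hu0
  have hu : ∀ ζ, u0 ζ + (1 - s) • Lt (L (u0 ζ)) = -((1 - s) • Lt ζ) := by
    intro ζ
    rw [← hPa]
    have : u0 ζ = -((1 - s) • Pe.symm (Lt ζ)) := rfl
    rw [this, map_neg, map_smul, hPe']
  -- the two quadratic forms
  set w : ℝ := Real.sqrt (1 - s) with hw
  have hw2 : w ^ 2 = 1 - s := Real.sq_sqrt h1s.le
  have hw0 : 0 < w := Real.sqrt_pos.2 h1s
  let e : (E k × E m) ≃ₗ[ℝ] WithLp 2 (E k × E m) := (WithLp.linearEquiv 2 ℝ (E k × E m)).symm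
  have he : ∀ p : E k × E m, ‖e p‖ ^ 2 = ‖p.1‖ ^ 2 + ‖p.2‖ ^ 2 := by
    intro p
    rw [WithLp.prod_norm_sq_eq_of_L2]
    rfl
  let a1 : E m →ₗ[ℝ] WithLp 2 (E k × E m) :=
    e.toLinearMap ∘ₗ (u0.prod (w • (LinearMap.id + L.toLinearMap ∘ₗ u0)))
  let a2 : E k →ₗ[ℝ] WithLp 2 (E k × E m) :=
    e.toLinearMap ∘ₗ (LinearMap.id.prod (w • L.toLinearMap))
  have ha1 : ∀ ζ, ‖a1 ζ‖ ^ 2 = ‖u0 ζ‖ ^ 2 + (1 - s) * ‖ζ + L (u0 ζ)‖ ^ 2 := by
    intro ζ
    have : a1 ζ = e (u0 ζ, w • (ζ + L (u0 ζ))) := rfl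
    rw [this, he]
    simp only [norm_smul, mul_pow, Real.norm_eq_abs, sq_abs, hw2]
  have ha2 : ∀ v, ‖a2 v‖ ^ 2 = ‖v‖ ^ 2 + (1 - s) * ‖L v‖ ^ 2 := by
    intro v
    have : a2 v = e (v, w • L v) := rfl
    rw [this, he]
    simp only [norm_smul, mul_pow, Real.norm_eq_abs, sq_abs, hw2]
  have hi1 : Function.Injective a1 := by
    rw [← LinearMap.ker_eq_bot, LinearMap.ker_eq_bot']
    intro ζ hζ
    have h := ha1 ζ
    rw [hζ, norm_zero] at h
    have h2 : ‖u0 ζ‖ ^ 2 = 0 := by nlinarith [sq_nonneg ‖u0 ζ‖, sq_nonneg ‖ζ + L (u0 ζ)‖]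
    have h3 : ‖ζ + L (u0 ζ)‖ ^ 2 = 0 := by
      have : (1 - s) * ‖ζ + L (u0 ζ)‖ ^ 2 = 0 := by nlinarith
      exact (mul_eq_zero.1 this).resolve_left h1s.ne'
    have h4 : u0 ζ = 0 := norm_eq_zero.1 (pow_eq_zero_iff two_ne_zero |>.1 h2)
    have h5 : ζ + L (u0 ζ) = 0 := norm_eq_zero.1 (pow_eq_zero_iff two_ne_zero |>.1 h3)
    rwa [h4, map_zero, add_zero] at h5
  have hi2 : Function.Injective a2 := by
    rw [← LinearMap.ker_eq_bot, LinearMap.ker_eq_bot']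
    intro v hv
    have h := ha2 v
    rw [hv, norm_zero] at h
    have h2 : ‖v‖ ^ 2 = 0 := by nlinarith [sq_nonneg ‖v‖, sq_nonneg ‖L v‖]
    exact norm_eq_zero.1 (pow_eq_zero_iff two_ne_zero |>.1 h2)
  obtain ⟨B, hB⟩ := sq_equiv a1 hi1
  obtain ⟨C', hC'⟩ := sq_equiv a2 hi2
  set u0c : E m →L[ℝ] E k := LinearMap.toContinuousLinearMap u0 with hu0c
  refine ⟨B, C'.symm, -(u0c.comp (B.symm : E m →L[ℝ] E m)), ?_, ?_⟩
  · intro ζ x
    set v : E k := C'.symm x with hv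
    have e1 : C'.symm x - (-(u0c.comp (B.symm : E m →L[ℝ] E m))) (B ζ) = u0 ζ + v := by
      have : (u0c.comp (B.symm : E m →L[ℝ] E m)) (B ζ) = u0 ζ := by
        show u0 (B.symm (B ζ)) = _
        rw [B.symm_apply_apply]
      rw [ContinuousLinearMap.neg_apply, this, hv]
      abel
    rw [e1]
    have e2 : ‖x‖ ^ 2 = ‖v‖ ^ 2 + (1 - s) * ‖L v‖ ^ 2 := by
      rw [← ha2, ← hC', hv, C'.apply_symm_apply]
    rw [e2, hB, ha1]
    have e3 : ζ + L (u0 ζ + v) = (ζ + L (u0 ζ)) + L v := by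
      rw [map_add]; abel
    rw [e3, norm_add_sq_real, norm_add_sq_real]
    have e4 : ⟪u0 ζ, v⟫ + (1 - s) * ⟪ζ + L (u0 ζ), L v⟫ = 0 := by
      have h := congrArg (fun q => ⟪q, v⟫) (hu ζ)
      simp only [inner_add_left, inner_smul_left, inner_neg_left, hLt,
        ContinuousLinearMap.adjoint_inner_left] at h
      rw [inner_add_left]
      simp at h
      linarith
    linarith
  · intro hL hR
    apply hL
    have h1 : ∀ ζ, u0 ζ = 0 := by
      intro ζ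
      have h := congrArg (fun T : E m →L[ℝ] E k => T (B ζ)) hR
      have h2 : (u0c.comp (B.symm : E m →L[ℝ] E m)) (B ζ) = u0 ζ := by
        show u0 (B.symm (B ζ)) = _
        rw [B.symm_apply_apply]
      simp only [ContinuousLinearMap.neg_apply, h2, ContinuousLinearMap.zero_apply, neg_eq_zero] at h
      exact h
    have h2 : ∀ ζ, Lt ζ = 0 := by
      intro ζ
      have h := hu ζ
      rw [h1, map_zero, map_zero, smul_zero, add_zero] at h
      have h3 : (1 - s) • Lt ζ = 0 := by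
        rw [← neg_eq_zero, ← h]
      exact (smul_eq_zero.1 h3).resolve_left h1s.ne'
    have h3 : Lt = 0 := by ext1 ζ; exact h2 ζ
    have h4 : L = ContinuousLinearMap.adjoint Lt := by
      rw [hLt, ContinuousLinearMap.adjoint_adjoint]
    rw [h4, h3, map_zero]

end Pool.Agent.L7h98.PD
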