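/-
Project PD (MP_4845bf_pr), part B3 (MAP).
-/
import Pool.Agent.L7h38.PD.Stm

open MeasureTheory Set Filter Topology
open scoped RealInnerProductSpace ENNReal

namespace Pool.Agent.L7h98.PD

open Pool.Agent.L7h38.PD

/-- linear substitution -/
theorem lin_sub {d : ℕ} (A : E d ≃L[ℝ] E d) : ∃ c : ℝ≥0∞, c ≠ 0 ∧ c ≠ ∞ ∧
    ∀ f : E d → ℝ≥0∞, Measurable f → ∫⁻ x, f x = c * ∫⁻ x, f (A x) := by
  set a : E d →ₗ[ℝ] E d := ((A : E d →L[ℝ] E d) : E d →ₗ[ℝ] E d) with ha
  have hdet : LinearMap.det a ≠ 0 := by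
    exact (LinearEquiv.isUnit_det' A.toLinearEquiv).ne_zero
  have hmap := Measure.map_linearMap_addHaar_eq_smul_addHaar (μ := (volume : Measure (E d))) hdet
  refine ⟨ENNReal.ofReal |LinearMap.det a|, ?_, ENNReal.ofReal_ne_top, fun f hf => ?_⟩
  · simpa using hdet
  have h1 : ∫⁻ x, f (A x) = ∫⁻ x, f x ∂(Measure.map a volume) := by
    rw [lintegral_map hf (show Measurable a from A.continuous.measurable)]
    rfl
  rw [h1, hmap, lintegral_smul_measure, smul_eq_mul, ← mul_assoc, ← ENNReal.ofReal_mul (abs_nonneg _),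
    abs_inv, mul_inv_cancel₀ (abs_ne_zero.2 hdet), ENNReal.ofReal_one, one_mul]

/-- polar coordinates for radial functions (lower integrals) -/
theorem radial {ν : ℕ} (hν : 0 < ν) : ∃ c : ℝ≥0∞, c ≠ 0 ∧ c ≠ ∞ ∧
    ∀ g : ℝ → ℝ≥0∞, Measurable g → ∫⁻ y : E ν, g (‖y‖ ^ 2) =
      c * ∫⁻ S in Ioi (0 : ℝ), ENNReal.ofReal (S ^ ((ν : ℝ) / 2 - 1)) * g S := by
  have : Nonempty (Fin ν) := ⟨⟨0, hν⟩⟩
  set μ : Measure (E ν) := volume
  have hdim : Module.finrank ℝ (E ν) = ν := by simp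
  refine ⟨μ.toSphere univ * 2⁻¹, ?_, ?_, fun g hg => ?_⟩
  · refine mul_ne_zero ?_ (by simp)
    intro h
    exact μ.toSphere_ne_zero (Measure.measure_univ_eq_zero.1 h)
  · exact ENNReal.mul_ne_top (measure_ne_top _ _) (by simp)
  have h1 : ∫⁻ y : E ν, g (‖y‖ ^ 2) = μ.toSphere univ *
      ∫⁻ r in Ioi (0 : ℝ), ENNReal.ofReal (r ^ (ν - 1)) * g (r ^ 2) := by
    calc
      ∫⁻ y : E ν, g (‖y‖ ^ 2) = ∫⁻ x : ({(0)}ᶜ : Set (E ν)), g (‖x.1‖ ^ 2) ∂(μ.comap (↑)) := by
        rw [lintegral_subtype_comap (measurableSet_singleton _).compl fun x => g (‖x‖ ^ 2),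
          restrict_compl_singleton]
      _ = ∫⁻ x, g (x.2.1 ^ 2) ∂μ.toSphere.prod (.volumeIoiPow (Module.finrank ℝ (E ν) - 1)) := by
        rw [← μ.measurePreserving_homeomorphUnitSphereProd.lintegral_comp_emb
          (Homeomorph.measurableEmbedding _)]
        simp
      _ = μ.toSphere univ * ∫⁻ x : Ioi (0 : ℝ), g (x.1 ^ 2)
            ∂.volumeIoiPow (Module.finrank ℝ (E ν) - 1) := by
        rw [lintegral_prod _ (by fun_prop)]
        simp [lintegral_const, mul_comm]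
      _ = _ := by
        congr 1
        rw [hdim, Measure.volumeIoiPow, lintegral_withDensity_eq_lintegral_mul _ (by fun_prop)
          (by fun_prop)]
        rw [← lintegral_subtype_comap measurableSet_Ioi
          (fun r : ℝ => ENNReal.ofReal (r ^ (ν - 1)) * g (r ^ 2))]
        rfl
  have h2 : ∫⁻ r in Ioi (0 : ℝ), ENNReal.ofReal (r ^ (ν - 1)) * g (r ^ 2) =
      2⁻¹ * ∫⁻ S in Ioi (0 : ℝ), ENNReal.ofReal (S ^ ((ν : ℝ) / 2 - 1)) * g S := by
    have him : (fun r : ℝ => r ^ 2) '' Ioi (0 : ℝ) = Ioi 0 := by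
      ext S
      constructor
      · rintro ⟨r, hr, rfl⟩
        exact pow_pos (mem_Ioi.1 hr) 2
      · intro hS
        exact ⟨Real.sqrt S, Real.sqrt_pos.2 hS, Real.sq_sqrt (le_of_lt hS)⟩
    have hinj : InjOn (fun r : ℝ => r ^ 2) (Ioi 0) := by
      intro a ha b hb hab
      exact (pow_left_inj₀ (le_of_lt ha) (le_of_lt hb) two_ne_zero).1 hab
    have h3 := lintegral_image_eq_lintegral_abs_deriv_mul (s := Ioi (0 : ℝ)) measurableSet_Ioi
      (f := fun r : ℝ => r ^ 2) (f' := fun r => 2 * r)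
      (fun r _ => by simpa using (hasDerivAt_pow 2 r).hasDerivWithinAt) hinj
      (fun S => ENNReal.ofReal (S ^ ((ν : ℝ) / 2 - 1)) * g S)
    rw [him] at h3
    rw [h3, ← lintegral_const_mul _ (by fun_prop)]
    refine setLIntegral_congr_fun measurableSet_Ioi fun r hr => ?_
    have hr0 : (0 : ℝ) < r := hr
    have e1 : (r ^ 2) ^ ((ν : ℝ) / 2 - 1) * (2 * r) = 2 * r ^ (ν - 1) := by
      rw [← Real.rpow_natCast r 2, ← Real.rpow_mul hr0.le]
      have : ((2 : ℕ) : ℝ) * ((ν : ℝ) / 2 - 1) = (ν : ℝ) - 2 := by push_cast; ring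
      rw [this]
      have e3 : r ^ ((ν : ℝ) - 2) * r = r ^ (ν - 1) := by
        nth_rewrite 2 [← Real.rpow_one r]
        rw [← Real.rpow_add hr0, ← Real.rpow_natCast r (ν - 1), Nat.cast_sub hν]
        congr 1
        push_cast
        ring
      rw [← e3]; ring
    show _ = 2⁻¹ * (ENNReal.ofReal |2 * r| * (ENNReal.ofReal ((r ^ 2) ^ ((ν : ℝ) / 2 - 1)) * g (r ^ 2)))
    rw [← mul_assoc (ENNReal.ofReal |2 * r|), ← ENNReal.ofReal_mul (abs_nonneg _),
      abs_of_pos (by positivity : (0 : ℝ) < 2 * r), mul_comm (2 * r), e1,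
      ENNReal.ofReal_mul (by norm_num : (0 : ℝ) ≤ 2), ← mul_assoc, ← mul_assoc]
    have : (2 : ℝ≥0∞)⁻¹ * ENNReal.ofReal 2 = 1 := by
      rw [ENNReal.ofReal_ofNat]
      exact ENNReal.inv_mul_cancel (by norm_num) (by norm_num)
    rw [this, one_mul]
  rw [h1, h2, mul_assoc]

theorem s_MAP : S_MAP := by
  intro k m ν s hν hs0 hs1 L B C R hsq
  obtain ⟨cB, hB0, hBt, hB⟩ := lin_sub B
  obtain ⟨cC, hC0, hCt, hC⟩ := lin_sub C
  obtain ⟨cr, hr0, hrt, hr⟩ := radial hν
  refine ⟨cr * (cC * cB⁻¹), ?_, ?_, fun θ F hF => ?_⟩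
  · exact mul_ne_zero hr0 (mul_ne_zero hC0 (by simpa using hBt))
  · exact ENNReal.mul_ne_top hrt (ENNReal.mul_ne_top hCt (by simpa using hB0))
  have hF' : ∀ {α : Type} [MeasurableSpace α] {a : α → ℝ} {b : α → E k} {c : α → ℝ},
      Measurable a → Measurable b → Measurable c → Measurable fun q => F (a q) (b q) (c q) :=
    fun ha hb hc => hF.comp (ha.prodMk (hb.prodMk hc))
  have hL : Measurable L := L.continuous.measurable
  have hR : Measurable R := R.continuous.measurable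
  have hBm : Measurable B := B.continuous.measurable
  have hCm : Measurable C := C.continuous.measurable
  -- the kernel
  set K : ℝ → E m → ℝ≥0∞ := fun S z => ∫⁻ w : E k,
    ENNReal.ofReal (Real.exp (-(‖z‖ ^ 2 + ‖w‖ ^ 2 + S) / 2)) * F S (θ - R z + C w) (‖z‖ ^ 2)
    with hK
  have hKm : Measurable (Function.uncurry K) := by
    apply Measurable.lintegral_prod_right'
      (f := fun q : (ℝ × E m) × E k =>
        ENNReal.ofReal (Real.exp (-(‖q.1.2‖ ^ 2 + ‖q.2‖ ^ 2 + q.1.1) / 2)) *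
          F q.1.1 (θ - R q.1.2 + C q.2) (‖q.1.2‖ ^ 2))
    refine Measurable.mul (by fun_prop) (hF' (by fun_prop) ?_ (by fun_prop))
    exact ((measurable_const.sub (hR.comp (by fun_prop))).add (hCm.comp (by fun_prop)))
  set g : ℝ → ℝ≥0∞ := fun S => ∫⁻ z : E m, K S z with hg
  have hgm : Measurable g := hKm.lintegral_prod_right'
  -- inner substitution
  have hin : ∀ (y : E ν) (ζ : E m),
      ∫⁻ x : E k, ENNReal.ofReal (Real.exp (-(‖x - θ‖ ^ 2 + ‖y‖ ^ 2) / 2 -
        (1 - s) * ‖ζ + L (x - θ)‖ ^ 2 / 2)) * F (‖y‖ ^ 2) x (‖B ζ‖ ^ 2) =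
      cC * K (‖y‖ ^ 2) (B ζ) := by
    intro y ζ
    rw [← lintegral_add_right_eq_self _ (θ - R (B ζ))]
    rw [hC _ ?_]
    · congr 1
      rw [hK]
      refine lintegral_congr fun w => ?_
      have e1 : C w + (θ - R (B ζ)) - θ = C w - R (B ζ) := by abel
      have e2 : C w + (θ - R (B ζ)) = θ - R (B ζ) + C w := by abel
      rw [e1, e2]
      congr 3
      have := hsq ζ w
      linarith
    · refine Measurable.mul ?_ (hF' (by fun_prop) (by fun_prop) (by fun_prop))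
      refine ENNReal.measurable_ofReal.comp (Real.measurable_exp.comp ?_)
      have h1 : Measurable fun u : E k => L (u + (θ - R (B ζ)) - θ) := hL.comp (by fun_prop)
      fun_prop
  -- left hand side
  have hΦ : Measurable fun y : (E k × E ν) × E m =>
      ENNReal.ofReal (Real.exp (-(‖y.1.1 - θ‖ ^ 2 + ‖y.1.2‖ ^ 2) / 2 -
        (1 - s) * ‖y.2 - L θ‖ ^ 2 / 2)) * F (‖y.1.2‖ ^ 2) y.1.1 (‖B (y.2 - L y.1.1)‖ ^ 2) := by
    refine Measurable.mul (by fun_prop) (hF' (by fun_prop) (by fun_prop) ?_)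
    have h1 : Measurable fun y : (E k × E ν) × E m => B (y.2 - L y.1.1) :=
      hBm.comp (measurable_snd.sub (hL.comp (by fun_prop)))
    fun_prop
  have hΨ : Measurable fun y : (E k × E ν) × E m =>
      ENNReal.ofReal (Real.exp (-(‖y.1.1 - θ‖ ^ 2 + ‖y.1.2‖ ^ 2) / 2 -
        (1 - s) * ‖y.2 + L (y.1.1 - θ)‖ ^ 2 / 2)) * F (‖y.1.2‖ ^ 2) y.1.1 (‖B y.2‖ ^ 2) := by
    refine Measurable.mul ?_ (hF' (by fun_prop) (by fun_prop) ?_)
    · have h1 : Measurable fun y : (E k × E ν) × E m => L (y.1.1 - θ) := hL.comp (by fun_prop)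
      fun_prop
    · have h1 : Measurable fun y : (E k × E ν) × E m => B y.2 := hBm.comp (by fun_prop)
      fun_prop
  calc ∫⁻ y : (E k × E ν) × E m,
      ENNReal.ofReal (Real.exp (-(‖y.1.1 - θ‖ ^ 2 + ‖y.1.2‖ ^ 2) / 2 -
        (1 - s) * ‖y.2 - L θ‖ ^ 2 / 2)) * F (‖y.1.2‖ ^ 2) y.1.1 (‖B (y.2 - L y.1.1)‖ ^ 2)
      = ∫⁻ p : E k × E ν, ∫⁻ ζ : E m,
        ENNReal.ofReal (Real.exp (-(‖p.1 - θ‖ ^ 2 + ‖p.2‖ ^ 2) / 2 -
        (1 - s) * ‖ζ + L (p.1 - θ)‖ ^ 2 / 2)) * F (‖p.2‖ ^ 2) p.1 (‖B ζ‖ ^ 2) := by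
        rw [Measure.volume_eq_prod, lintegral_prod _ hΦ.aemeasurable]
        refine lintegral_congr fun p => ?_
        rw [← lintegral_add_right_eq_self _ (L p.1)]
        refine lintegral_congr fun ζ => ?_
        have e1 : ζ + L p.1 - L θ = ζ + L (p.1 - θ) := by
          rw [map_sub]; abel
        have e2 : ζ + L p.1 - L p.1 = ζ := by abel
        rw [e1, e2]
    _ = ∫⁻ y : E ν, ∫⁻ x : E k, ∫⁻ ζ : E m,
        ENNReal.ofReal (Real.exp (-(‖x - θ‖ ^ 2 + ‖y‖ ^ 2) / 2 -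
        (1 - s) * ‖ζ + L (x - θ)‖ ^ 2 / 2)) * F (‖y‖ ^ 2) x (‖B ζ‖ ^ 2) := by
        rw [Measure.volume_eq_prod, lintegral_prod_symm' _ hΨ.lintegral_prod_right']
    _ = ∫⁻ y : E ν, ∫⁻ ζ : E m, ∫⁻ x : E k,
        ENNReal.ofReal (Real.exp (-(‖x - θ‖ ^ 2 + ‖y‖ ^ 2) / 2 -
        (1 - s) * ‖ζ + L (x - θ)‖ ^ 2 / 2)) * F (‖y‖ ^ 2) x (‖B ζ‖ ^ 2) := by
        refine lintegral_congr fun y => ?_
        rw [lintegral_lintegral_swap]
        exact (hΨ.comp ((measurable_fst.prodMk measurable_const).prodMk measurable_snd)).aemeasurable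
    _ = ∫⁻ y : E ν, ∫⁻ ζ : E m, cC * K (‖y‖ ^ 2) (B ζ) := by
        refine lintegral_congr fun y => lintegral_congr fun ζ => hin y ζ
    _ = ∫⁻ y : E ν, (cC * cB⁻¹) * g (‖y‖ ^ 2) := by
        refine lintegral_congr fun y => ?_
        have hm : Measurable (K (‖y‖ ^ 2)) := hKm.of_uncurry_left
        have hm2 : Measurable fun ζ : E m => K (‖y‖ ^ 2) (B ζ) := hm.comp hBm
        rw [lintegral_const_mul _ hm2, hg]
        show _ = cC * cB⁻¹ * ∫⁻ z, K (‖y‖ ^ 2) z
        rw [hB _ hm, mul_assoc, ← mul_assoc cB⁻¹, ENNReal.inv_mul_cancel hB0 hBt, one_mul]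
    _ = cr * (cC * cB⁻¹) * ∫⁻ S in Ioi (0 : ℝ), ENNReal.ofReal (S ^ ((ν : ℝ) / 2 - 1)) * g S := by
        have hm3 : Measurable fun y : E ν => g (‖y‖ ^ 2) := hgm.comp (by fun_prop)
        rw [lintegral_const_mul _ hm3, hr g hgm]
        ring
    _ = _ := by
        congr 1
        rw [mu, lintegral_prod]
        · refine setLIntegral_congr_fun measurableSet_Ioi fun S hS => ?_
          have hS0 : (0 : ℝ) < S := hS
          rw [hg]
          show ENNReal.ofReal (S ^ ((ν : ℝ) / 2 - 1)) * ∫⁻ z, K S z = _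
          rw [← lintegral_const_mul _ hKm.of_uncurry_left, lintegral_prod]
          · refine lintegral_congr fun z => ?_
            rw [hK]
            show _ * ∫⁻ w, _ = _
            rw [← lintegral_const_mul]
            · refine lintegral_congr fun w => ?_
              rw [← mul_assoc, ← ENNReal.ofReal_mul (Real.rpow_nonneg hS0.le _)]
              simp only [TT, xx]
              congr 4
              ring
            · refine Measurable.mul (by fun_prop) (hF' (by fun_prop) ?_ (by fun_prop))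
              exact (measurable_const.add (hCm.comp (by fun_prop)))
          · refine (Measurable.mul ?_ (hF' (by fun_prop) ?_ (by fun_prop))).aemeasurable
            · unfold TT
              fun_prop
            · unfold xx
              exact ((measurable_const.sub (hR.comp (by fun_prop))).add (hCm.comp (by fun_prop)))
        · refine (Measurable.mul ?_ (hF' (by fun_prop) ?_ (by fun_prop))).aemeasurable
          · unfold TT
            fun_prop
          · unfold xx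
            exact ((measurable_const.sub (hR.comp (by fun_prop))).add (hCm.comp (by fun_prop)))

end Pool.Agent.L7h98.PD
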