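/-
Project PD (MP_4845bf_pr), part B4 (NORM).
-/
import Pool.Agent.L7h38.PD.Stm

open MeasureTheory Set Filter Topology
open scoped RealInnerProductSpace ENNReal

namespace Pool.Agent.L7h98.PD

open Pool.Agent.L7h38.PD

theorem s_NORM : S_NORM := by
  intro m a ha B
  have ha0 : 0 < a := lt_of_le_of_lt (by positivity) ha
  set g : E m → ℝ := fun y => (1 + ‖y‖ ^ 2) ^ (-a) with hg
  have hgi : Integrable g := by
    have h := integrable_rpow_neg_one_add_norm_sq (E := E m) (μ := volume) (r := 2 * a)
      (by rw [finrank_euclideanSpace, Fintype.card_fin]; linarith)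
    have e : -(2 * a) / 2 = -a := by ring
    rw [e] at h
    exact h
  -- composition with `B`
  set b : E m →ₗ[ℝ] E m := ((B : E m →L[ℝ] E m) : E m →ₗ[ℝ] E m) with hb
  have hdet : LinearMap.det b ≠ 0 := (LinearEquiv.isUnit_det' B.toLinearEquiv).ne_zero
  have hmap := Measure.map_linearMap_addHaar_eq_smul_addHaar (μ := (volume : Measure (E m))) hdet
  set h : E m → ℝ := fun z => g (B z) with hh
  have hhi : Integrable h := by
    have h1 : Integrable g (Measure.map b volume) := by
      rw [hmap]
      exact hgi.smul_measure ENNReal.ofReal_ne_top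
    exact ((B.toHomeomorph.measurableEmbedding).integrable_map_iff (μ := volume) (g := g)).1 h1
  have hpos : ∀ z, 0 < h z := fun z => Real.rpow_pos_of_pos (by positivity) _
  refine ⟨∫ z, h z, ?_, fun S hS c => ?_⟩
  · rw [integral_pos_iff_support_of_nonneg (fun z => (hpos z).le) hhi]
    have : Function.support h = univ := by
      ext z
      simp [(hpos z).ne']
    rw [this]
    exact Measure.measure_univ_pos.2 (NeZero.ne _)
  · have hr : 0 < Real.sqrt S := Real.sqrt_pos.2 hS
    have e1 : (fun z : E m => (S + ‖B (z - c)‖ ^ 2) ^ (-a)) =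
        fun z => S ^ (-a) * h ((Real.sqrt S)⁻¹ • (z - c)) := by
      funext z
      have e2 : S + ‖B (z - c)‖ ^ 2 = S * (1 + ‖B ((Real.sqrt S)⁻¹ • (z - c))‖ ^ 2) := by
        rw [map_smul, norm_smul, mul_pow, norm_inv, Real.norm_of_nonneg hr.le, inv_pow,
          Real.sq_sqrt hS.le]
        field_simp
      rw [e2, Real.mul_rpow hS.le (by positivity)]
    rw [e1]
    have hi2 : Integrable (fun z : E m => h ((Real.sqrt S)⁻¹ • z)) :=
      hhi.comp_smul (inv_ne_zero hr.ne')
    constructor
    · exact (hi2.comp_sub_right c).const_mul _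
    · rw [integral_const_mul, integral_sub_right_eq_self (fun z => h ((Real.sqrt S)⁻¹ • z)) c,
        Measure.integral_comp_smul, finrank_euclideanSpace, Fintype.card_fin, smul_eq_mul]
      have e3 : |(((Real.sqrt S)⁻¹) ^ m)⁻¹| = S ^ ((m : ℝ) / 2) := by
        rw [inv_pow, inv_inv, abs_of_pos (by positivity), Real.sqrt_eq_rpow, ← Real.rpow_natCast,
          ← Real.rpow_mul hS.le]
        congr 1
        ring
      rw [e3, sub_eq_add_neg ((m : ℝ) / 2), Real.rpow_add hS]
      ring

end Pool.Agent.L7h98.PD
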